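import Pool.Agent.H30.FA.TA

/-!
Row DET of the board `fas_modules`.
-/

namespace Pool.Agent.H57.FAS

open Pool.Agent.H30.FA

noncomputable section

theorem reidx {M : Type} [AddCommMonoid M] (A d : ℕ) (f : Fin d → M) :
    ∑ a : Fin A, (if h : (a : ℕ) < d then f ⟨a, h⟩ else 0) =
      ∑ a ∈ Finset.univ.filter (fun a : Fin d => (a : ℕ) < A), f a := by
  have h1 := Fin.sum_univ_eq_sum_range (fun n => if h : n < d then f ⟨n, h⟩ else 0) A
  rw [h1, Finset.sum_filter]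
  have h2 := Fin.sum_univ_eq_sum_range
    (fun n => if n < A then (if h : n < d then f ⟨n, h⟩ else 0) else 0) d
  have h3 : ∑ a : Fin d, (if (a : ℕ) < A then f a else 0) = ∑ a : Fin d,
      (fun n => if n < A then (if h : n < d then f ⟨n, h⟩ else 0) else 0) (a : ℕ) := by
    refine Finset.sum_congr rfl fun a _ => ?_
    have ha := a.isLt
    simp [ha]
  rw [h3, h2, ← Finset.sum_filter]
  have h4 : ∑ n ∈ Finset.range A, (if h : n < d then f ⟨n, h⟩ else 0) =
      ∑ n ∈ (Finset.range A).filter (fun n => n < d),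
        (if h : n < d then f ⟨n, h⟩ else 0) := by
    rw [Finset.sum_filter]
    refine Finset.sum_congr rfl fun n _ => ?_
    by_cases hn : n < d
    · simp [hn]
    · simp [hn]
  rw [h4]
  apply Finset.sum_congr
  · ext n
    simp only [Finset.mem_filter, Finset.mem_range]
    tauto
  · intro n _
    rfl

/-- the truncated coordinates and `pin` -/
theorem trc_pin {A n : ℕ} (e : OrthonormalBasis (Fin n) ℂ (V n)) (z w : V n) :
    ∑ a : Fin A, (starRingEnd ℂ) (trc A (e.repr z) a) * trc A (e.repr w) a =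
      pin e (Finset.univ.filter fun a => (a : ℕ) < A) z w := by
  unfold pin
  rw [← reidx A n (fun a => inner ℂ z (e a) * inner ℂ (e a) w)]
  refine Finset.sum_congr rfl fun a _ => ?_
  unfold trc
  by_cases h : (a : ℕ) < n
  · rw [dif_pos h, dif_pos h, dif_pos h, OrthonormalBasis.repr_apply_apply,
      OrthonormalBasis.repr_apply_apply, inner_conj_symm]
  · rw [dif_neg h, dif_neg h, dif_neg h, mul_zero]

theorem trc_norm {A n : ℕ} (y : V n) : ∑ a : Fin A, ‖trc A y a‖ ^ 2 ≤ ‖y‖ ^ 2 := by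
  have h1 : ∑ a : Fin A, ‖trc A y a‖ ^ 2 =
      ∑ a : Fin A, (if h : (a : ℕ) < n then ‖y ⟨a, h⟩‖ ^ 2 else 0) := by
    refine Finset.sum_congr rfl fun a _ => ?_
    unfold trc
    by_cases h : (a : ℕ) < n
    · rw [dif_pos h, dif_pos h]
    · rw [dif_neg h, dif_neg h]; simp
  rw [h1, reidx A n (fun a => ‖y a‖ ^ 2), EuclideanSpace.norm_sq_eq]
  exact Finset.sum_le_sum_of_subset_of_nonneg (Finset.filter_subset _ _)
    (fun _ _ _ => sq_nonneg _)

/-- Cauchy-Schwarz on one component -/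
theorem cs_part {A D : ℕ} (u y : FF A D) (j : Fin (D + 1)) :
    ‖∑ q : Fin (j : ℕ) → Fin A × Fin A, (starRingEnd ℂ) (u ⟨j, q⟩) * y ⟨j, q⟩‖ ≤
      ‖u‖ * ‖y‖ := by
  have h1 : ‖∑ q : Fin (j : ℕ) → Fin A × Fin A, (starRingEnd ℂ) (u ⟨j, q⟩) * y ⟨j, q⟩‖ ≤
      ∑ q : Fin (j : ℕ) → Fin A × Fin A, ‖u ⟨j, q⟩‖ * ‖y ⟨j, q⟩‖ := by
    refine (norm_sum_le _ _).trans (Finset.sum_le_sum fun q _ => ?_)
    rw [norm_mul, RCLike.norm_conj]
  have h2 : ∑ q : Fin (j : ℕ) → Fin A × Fin A, ‖u ⟨j, q⟩‖ * ‖y ⟨j, q⟩‖ ≤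
      ∑ p : FI A D, ‖u p‖ * ‖y p‖ := by
    rw [Fintype.sum_sigma]
    exact Finset.single_le_sum (f := fun j : Fin (D + 1) =>
      ∑ q : Fin (j : ℕ) → Fin A × Fin A, ‖u ⟨j, q⟩‖ * ‖y ⟨j, q⟩‖)
      (fun j _ => Finset.sum_nonneg fun q _ => by positivity) (Finset.mem_univ j)
  have h3 := Real.sum_mul_le_sqrt_mul_sqrt Finset.univ (fun p : FI A D => ‖u p‖)
    (fun p => ‖y p‖)
  rw [← EuclideanSpace.norm_eq, ← EuclideanSpace.norm_eq] at h3
  exact h1.trans (h2.trans h3)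

theorem mom_apply {A D : ℕ} {J : Type} [Fintype J] {d : ℕ} (t : J → ℝ) (x : J → V d)
    (G : V d ≃ₗᵢ[ℂ] V d) (p : FI A D) :
    mom A D t x G p = ∑ j, (t j : ℂ) * ft D (trc A (G.symm (x j))) p := by
  unfold mom
  rw [WithLp.ofLp_sum, Finset.sum_apply]
  rfl

/-- the moments as inner products of the features -/
theorem mom_inner (hFTR : T_FTR) {A D : ℕ} {J : Type} [Fintype J] {n : ℕ} (t : J → ℝ)
    (x : J → V n) (e : OrthonormalBasis (Fin n) ℂ (V n)) (G : V n ≃ₗᵢ[ℂ] V n)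
    (g : V n ≃ₗᵢ[ℂ] V n) (hg : ∀ k, G.symm (x k) = e.repr (g (x k))) (j : Fin (D + 1)) :
    ∑ q : Fin (j : ℕ) → Fin A × Fin A,
      (starRingEnd ℂ) (mom A D t x e.repr.symm ⟨j, q⟩) * mom A D t x G ⟨j, q⟩ =
    ((∑ i, ∑ k, t i * t k * ‖pin e (Finset.univ.filter fun a => (a : ℕ) < A) (x i)
      (g (x k))‖ ^ (2 * (j : ℕ)) : ℝ) : ℂ) := by
  have h1 : ∀ q : Fin (j : ℕ) → Fin A × Fin A,
      (starRingEnd ℂ) (mom A D t x e.repr.symm ⟨j, q⟩) * mom A D t x G ⟨j, q⟩ =
      ∑ i, ∑ k, ((t i : ℂ) * (t k : ℂ)) * ((starRingEnd ℂ) (ft D (trc A (e.repr (x i))) ⟨j, q⟩) *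
        ft D (trc A (e.repr (g (x k)))) ⟨j, q⟩) := by
    intro q
    rw [mom_apply, mom_apply, map_sum, Finset.sum_mul_sum]
    refine Finset.sum_congr rfl fun i _ => Finset.sum_congr rfl fun k _ => ?_
    rw [map_mul, Complex.conj_ofReal, hg, LinearIsometryEquiv.symm_symm]
    ring
  simp_rw [h1]
  rw [Finset.sum_comm]
  push_cast
  refine Finset.sum_congr rfl fun i _ => ?_
  rw [Finset.sum_comm]
  refine Finset.sum_congr rfl fun k _ => ?_
  rw [← Finset.mul_sum, (hFTR A D _ _).2.2.2 j, trc_pin]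
  push_cast
  ring

theorem pf_DET (hNSY : T_NSY) (_hBAS : T_BAS) (hFTR : T_FTR) (hFLP : T_FLP)
    (hTRN : T_TRN) : T_DET := by
  intro κ κ₂ hk1 hk2
  obtain ⟨D, ε0, hε0, hsy⟩ := hNSY κ κ₂ hk1 hk2
  obtain ⟨A, hA⟩ : ∃ A : ℕ, 4 * (D : ℝ) / Real.sqrt (A + 1) ≤ ε0 / 2 := by
    obtain ⟨A, hA⟩ := exists_nat_gt ((8 * (D : ℝ) / ε0) ^ 2)
    refine ⟨A, ?_⟩
    have h1 : 8 * (D : ℝ) / ε0 ≤ Real.sqrt (A + 1) := by
      apply Real.le_sqrt_of_sq_le
      linarith
    have h2 : 0 < Real.sqrt ((A : ℝ) + 1) := Real.sqrt_pos.2 (by positivity)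
    rw [div_le_div_iff₀ h2 (by norm_num)]
    rw [div_le_iff₀ hε0] at h1
    linarith
  obtain ⟨ε, hε, hε1, hε2⟩ : ∃ ε : ℝ, 0 < ε ∧ 4 * ε ≤ ε0 ∧
      Real.sqrt (D + 1) * (5 * ε) ≤ ε0 / 2 := by
    have h1 : 0 < Real.sqrt ((D : ℝ) + 1) := Real.sqrt_pos.2 (by positivity)
    refine ⟨min (ε0 / 4) (ε0 / (10 * Real.sqrt (D + 1))), by positivity, ?_, ?_⟩
    · have := min_le_left (ε0 / 4) (ε0 / (10 * Real.sqrt (D + 1)))
      linarith
    · have h2 := min_le_right (ε0 / 4) (ε0 / (10 * Real.sqrt (D + 1)))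
      have h3 : Real.sqrt ((D : ℝ) + 1) * (5 * (ε0 / (10 * Real.sqrt (D + 1)))) = ε0 / 2 := by
        field_simp
        ring
      rw [← h3]
      apply mul_le_mul_of_nonneg_left _ h1.le
      linarith
  refine ⟨A, D, ε, hε, ?_⟩
  intro J _ k C hanti hC1 v hv
  have hWt : Wt C.t := ⟨C.t_nonneg, C.t_sum⟩
  constructor
  · have h1 := (hFLP A D J k v C.t C.t C.x (C.e 0) (C.e 1) (C.e 0) (C.e 1) hWt hWt
      C.norm_x).2.1 C.e.repr.symm
    refine h1.trans ?_
    unfold fG eb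
    rw [OrthonormalBasis.repr_symm_single, OrthonormalBasis.repr_symm_single, sub_self, sub_self,
      norm_zero, add_zero, add_zero]
    exact hv
  · by_contra hcon
    rw [not_lt] at hcon
    obtain ⟨G, hG⟩ := (hFLP A D J k v C.t C.t C.x (C.e 0)
      (Complex.exp (-Complex.I) • C.e 1) (C.e 0) (C.e 1) hWt hWt C.norm_x).2.2.1 ε hε
    have hG4 : fG v C.t C.x (C.e 0) (Complex.exp (-Complex.I) • C.e 1) G < 4 * ε := by
      linarith
    unfold fG at hG4
    have n1 := norm_nonneg (v - mom A D C.t C.x G)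
    have n2 := norm_nonneg (G (eb 0) - C.e 0)
    have n3 := norm_nonneg (G (eb 1) - Complex.exp (-Complex.I) • C.e 1)
    obtain ⟨g, hg⟩ : ∃ g : V (k + 2) ≃ₗᵢ[ℂ] V (k + 2), g = G.symm.trans C.e.repr.symm :=
      ⟨_, rfl⟩
    have hgy : ∀ y, g y = C.e.repr.symm (G.symm y) := by intro y; rw [hg]; rfl
    have hgs : ∀ y, G.symm y = C.e.repr (g y) := by
      intro y
      rw [hgy, LinearIsometryEquiv.apply_symm_apply]
    have he : ∀ a, C.e.repr.symm (eb a) = C.e a := by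
      intro a
      unfold eb
      rw [OrthonormalBasis.repr_symm_single]
    refine hsy J (V (k + 2)) (k + 2) C 0 1 g (hC1.trans (hanti (Fin.zero_le _))) hC1 ⟨?_, ?_, ?_⟩
    · have h1 : g (C.e 0) - C.e 0 = C.e.repr.symm (G.symm (C.e 0 - G (eb 0))) := by
        rw [map_sub, map_sub, LinearIsometryEquiv.symm_apply_apply, he, ← hgy]
      rw [h1, LinearIsometryEquiv.norm_map, LinearIsometryEquiv.norm_map, norm_sub_rev]
      linarith
    · have h1 : g (C.e 1) - Complex.exp Complex.I • C.e 1 =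
          C.e.repr.symm (G.symm (C.e 1 - Complex.exp Complex.I • G (eb 1))) := by
        rw [map_sub, map_sub, map_smul, map_smul, LinearIsometryEquiv.symm_apply_apply, he,
          ← hgy]
      rw [h1, LinearIsometryEquiv.norm_map, LinearIsometryEquiv.norm_map]
      have h2 : C.e 1 - Complex.exp Complex.I • G (eb 1) =
          Complex.exp Complex.I • (Complex.exp (-Complex.I) • C.e 1 - G (eb 1)) := by
        rw [smul_sub, smul_smul, ← Complex.exp_add, add_neg_cancel, Complex.exp_zero, one_smul]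
      have h3 : ‖Complex.exp Complex.I‖ = 1 := by
        have := Complex.norm_exp_ofReal_mul_I 1
        rwa [Complex.ofReal_one, one_mul] at this
      rw [h2, norm_smul, h3, one_mul, norm_sub_rev]
      linarith
    · intro j hj
      obtain ⟨S, hS⟩ : ∃ S : Finset (Fin (k + 2)),
        S = Finset.univ.filter fun a : Fin (k + 2) => (a : ℕ) < A := ⟨_, rfl⟩
      have hjD : j < D + 1 := Nat.lt_succ_of_le hj
      have m0 := mom_inner hFTR (A := A) (D := D) C.t C.x C.e C.e.repr.symm 1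
        (fun k => by rw [LinearIsometryEquiv.symm_symm]; rfl) ⟨j, hjD⟩
      have m1 := mom_inner hFTR (A := A) (D := D) C.t C.x C.e G g (fun k => hgs _) ⟨j, hjD⟩
      rw [← hS] at m0 m1
      obtain ⟨P0, hP0⟩ : ∃ P0 : ℝ, P0 = ∑ i, ∑ l, C.t i * C.t l *
        ‖pin C.e S (C.x i) ((1 : V (k + 2) ≃ₗᵢ[ℂ] V (k + 2)) (C.x l))‖ ^ (2 * j) := ⟨_, rfl⟩
      obtain ⟨P1, hP1⟩ : ∃ P1 : ℝ, P1 = ∑ i, ∑ k, C.t i * C.t k *
        ‖pin C.e S (C.x i) (g (C.x k))‖ ^ (2 * j) := ⟨_, rfl⟩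
      have m0' : ∑ q : Fin j → Fin A × Fin A,
          (starRingEnd ℂ) (mom A D C.t C.x C.e.repr.symm ⟨⟨j, hjD⟩, q⟩) *
          mom A D C.t C.x C.e.repr.symm ⟨⟨j, hjD⟩, q⟩ = (P0 : ℂ) := by
        rw [hP0]; exact m0
      have m1' : ∑ q : Fin j → Fin A × Fin A,
          (starRingEnd ℂ) (mom A D C.t C.x C.e.repr.symm ⟨⟨j, hjD⟩, q⟩) *
          mom A D C.t C.x G ⟨⟨j, hjD⟩, q⟩ = (P1 : ℂ) := by
        rw [hP1]; exact m1
      have hdiff : |P1 - P0| ≤ ‖mom A D C.t C.x C.e.repr.symm‖ *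
          ‖mom A D C.t C.x G - mom A D C.t C.x C.e.repr.symm‖ := by
        have h1 := cs_part (mom A D C.t C.x C.e.repr.symm)
          (mom A D C.t C.x G - mom A D C.t C.x C.e.repr.symm) ⟨j, hjD⟩
        have h2 : ∑ q : Fin j → Fin A × Fin A,
            (starRingEnd ℂ) (mom A D C.t C.x C.e.repr.symm ⟨⟨j, hjD⟩, q⟩) *
            (mom A D C.t C.x G - mom A D C.t C.x C.e.repr.symm) ⟨⟨j, hjD⟩, q⟩ =
            ((P1 - P0 : ℝ) : ℂ) := by
          rw [Complex.ofReal_sub, ← m1', ← m0', ← Finset.sum_sub_distrib]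
          refine Finset.sum_congr rfl fun q _ => ?_
          rw [← mul_sub]
          rfl
        have h3 := h2 ▸ h1
        rwa [Complex.norm_real, Real.norm_eq_abs] at h3
      have hm0 : ‖mom A D C.t C.x C.e.repr.symm‖ ≤ Real.sqrt (D + 1) := by
        unfold mom
        refine (norm_sum_le _ _).trans ?_
        have h1 : ∀ i, ‖(C.t i : ℂ) • ft D (trc A (C.e.repr.symm.symm (C.x i)))‖ ≤
            C.t i * Real.sqrt (D + 1) := by
          intro i
          rw [norm_smul, Complex.norm_real, Real.norm_eq_abs, abs_of_nonneg (C.t_nonneg i)]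
          apply mul_le_mul_of_nonneg_left _ (C.t_nonneg i)
          apply Real.le_sqrt_of_sq_le
          apply (hFTR A D _ 0).2.1
          refine (trc_norm _).trans ?_
          rw [LinearIsometryEquiv.norm_map, C.norm_x]
          norm_num
        refine (Finset.sum_le_sum fun i _ => h1 i).trans ?_
        rw [← Finset.sum_mul, C.t_sum, one_mul]
      have hm01 : ‖mom A D C.t C.x G - mom A D C.t C.x C.e.repr.symm‖ ≤ 5 * ε := by
        have h1 : mom A D C.t C.x G - mom A D C.t C.x C.e.repr.symm =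
            (v - mom A D C.t C.x C.e.repr.symm) - (v - mom A D C.t C.x G) := by abel
        rw [h1]
        refine (norm_sub_le _ _).trans ?_
        linarith
      have hP : P0 - ε0 / 2 ≤ P1 := by
        have h1 : |P1 - P0| ≤ ε0 / 2 := by
          refine hdiff.trans (le_trans ?_ hε2)
          exact mul_le_mul hm0 hm01 (norm_nonneg _) (Real.sqrt_nonneg _)
        have := (abs_le.1 h1).1
        linarith
      have tr : ∀ f : V (k + 2) ≃ₗᵢ[ℂ] V (k + 2),
          |qq C.t C.x j f - ∑ i, ∑ k, C.t i * C.t k *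
            ‖pin C.e S (C.x i) (f (C.x k))‖ ^ (2 * j)| ≤ 2 * j / Real.sqrt (A + 1) := by
        intro f
        have h1 := hTRN κ J (k + 2) C f A j hanti
        rw [← hS] at h1
        refine le_trans ?_ h1
        unfold qq
        rw [← Finset.sum_sub_distrib]
        refine (Finset.abs_sum_le_sum_abs _ _).trans (Finset.sum_le_sum fun i _ => ?_)
        rw [← Finset.sum_sub_distrib]
        refine (Finset.abs_sum_le_sum_abs _ _).trans (Finset.sum_le_sum fun l _ => ?_)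
        rw [← mul_sub, abs_mul, abs_of_nonneg (mul_nonneg (C.t_nonneg i) (C.t_nonneg l))]
      have t0 := (abs_le.1 (tr 1)).2
      have t1 := (abs_le.1 (tr g)).1
      rw [← hP0] at t0
      rw [← hP1] at t1
      have h2 : 2 * (j : ℝ) / Real.sqrt (A + 1) ≤ ε0 / 4 := by
        have h3 : 2 * (j : ℝ) / Real.sqrt (A + 1) ≤ 2 * (D : ℝ) / Real.sqrt (A + 1) := by
          apply div_le_div_of_nonneg_right _ (Real.sqrt_nonneg _)
          have : (j : ℝ) ≤ D := by exact_mod_cast hj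
          linarith
        have h4 : 2 * (D : ℝ) / Real.sqrt (A + 1) = (4 * (D : ℝ) / Real.sqrt (A + 1)) / 2 := by
          ring
        linarith
      linarith

end

end Pool.Agent.H57.FAS
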