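import Pool.Agent.H30.FA.TA

/-!
Row FOU of the board `fas_modules`.
-/

namespace Pool.Agent.H57.FAS

open Pool.Agent.H30.FA Real MeasureTheory intervalIntegral

noncomputable section

/-- the kernel -/
def ker (W : ℕ) (y : ℝ) : ℝ := ((1 + Real.cos y) / 2) ^ W

theorem ker_nonneg (W : ℕ) (y : ℝ) : 0 ≤ ker W y := by
  unfold ker
  have := Real.neg_one_le_cos y
  exact pow_nonneg (by linarith) _

theorem ker_cont (W : ℕ) : Continuous (ker W) := by
  unfold ker; fun_prop

theorem ker_per (W : ℕ) (y : ℝ) : ker W (y + 2 * π) = ker W y := by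
  unfold ker; rw [Real.cos_add_two_pi]

theorem ker_half (W : ℕ) (y : ℝ) : ker W y = Real.cos (y / 2) ^ (2 * W) := by
  unfold ker
  rw [pow_mul]
  congr 1
  rw [Real.cos_sq]
  have : 2 * (y / 2) = y := by ring
  rw [this]
  ring

/-- the integral of the kernel -/
def ki (W : ℕ) : ℝ := ∫ y in (-π)..π, ker W y

theorem ki_eq (W : ℕ) : ki W = 2 * ∫ x in (-(π / 2))..(π / 2), Real.cos x ^ (2 * W) := by
  unfold ki
  have h1 : (fun y => ker W y) = fun y => (fun x => Real.cos x ^ (2 * W)) (y / 2) := by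
    funext y
    exact ker_half W y
  rw [h1, intervalIntegral.integral_comp_div (fun x => Real.cos x ^ (2 * W)) two_ne_zero,
    smul_eq_mul, neg_div]

theorem ki_succ (W : ℕ) : ki W - ki (W + 1) = ki W / (2 * W + 2) := by
  rw [ki_eq, ki_eq]
  have h1 : 2 * (W + 1) = 2 * W + 2 := by ring
  rw [h1, integral_cos_pow, Real.cos_neg, Real.cos_pi_div_two]
  have h2 : (2 * (W : ℝ) + 2) ≠ 0 := by positivity
  rw [zero_pow (by omega)]
  push_cast
  field_simp
  ring

theorem ki_pos (W : ℕ) : 0 < ki W := by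
  unfold ki
  apply intervalIntegral.intervalIntegral_pos_of_pos_on
  · exact (ker_cont W).intervalIntegrable _ _
  · intro y hy
    rw [ker_half]
    apply pow_pos
    apply Real.cos_pos_of_mem_Ioo
    constructor
    · linarith [hy.1]
    · linarith [hy.2]
  · linarith [Real.pi_pos]

theorem abs_le_kernel (δ y : ℝ) (hδ : 0 < δ) (h1 : -π ≤ y) (h2 : y ≤ π) :
    |y| ≤ π / 2 * (δ + (1 - (1 + Real.cos y) / 2) / δ) := by
  have hy0 : 0 ≤ |y| := abs_nonneg y
  have hy1 : |y| ≤ π := abs_le.2 ⟨h1, h2⟩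
  have h3 := Real.mul_le_sin (x := |y| / 2) (by linarith) (by linarith)
  have h4 : Real.sin (|y| / 2) ^ 2 = 1 - (1 + Real.cos y) / 2 := by
    have h5 : Real.cos y = Real.cos (2 * (|y| / 2)) := by
      rw [← Real.cos_abs y]
      congr 1
      ring
    rw [h5, Real.cos_two_mul, Real.sin_sq]
    ring
  rw [← h4]
  have hpi := Real.pi_pos
  have h6 : |y| ≤ π * Real.sin (|y| / 2) := by
    have h7 : 2 / π * (|y| / 2) = |y| / π := by field_simp
    rw [h7, div_le_iff₀ hpi] at h3
    linarith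
  have h8 : 2 * Real.sin (|y| / 2) ≤ δ + Real.sin (|y| / 2) ^ 2 / δ := by
    have h9 : δ + Real.sin (|y| / 2) ^ 2 / δ - 2 * Real.sin (|y| / 2) =
        (δ - Real.sin (|y| / 2)) ^ 2 / δ := by
      field_simp
      ring
    have h10 : 0 ≤ (δ - Real.sin (|y| / 2)) ^ 2 / δ := by positivity
    linarith
  nlinarith

theorem E_le (W : ℕ) (δ : ℝ) (hδ : 0 < δ) :
    ∫ y in (-π)..π, |y| * ker W y ≤ π / 2 * (δ + 1 / (δ * (2 * W + 2))) * ki W := by
  have hpi := Real.pi_pos
  have h1 : ∫ y in (-π)..π, |y| * ker W y ≤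
      ∫ y in (-π)..π, π / 2 * ((δ + 1 / δ) * ker W y - 1 / δ * ker (W + 1) y) := by
    apply intervalIntegral.integral_mono_on (by linarith)
    · exact (continuous_abs.mul (ker_cont W)).intervalIntegrable _ _
    · exact (((continuous_const.mul (ker_cont W)).sub
        (continuous_const.mul (ker_cont (W + 1)))).const_mul _ |>.intervalIntegrable _ _)
    · intro y hy
      have h2 := mul_le_mul_of_nonneg_right (abs_le_kernel δ y hδ hy.1 hy.2) (ker_nonneg W y)
      refine h2.trans (le_of_eq ?_)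
      have h3 : ker (W + 1) y = (1 + Real.cos y) / 2 * ker W y := by
        unfold ker; rw [pow_succ]; ring
      rw [h3]
      field_simp
      ring
  refine h1.trans (le_of_eq ?_)
  rw [intervalIntegral.integral_const_mul, intervalIntegral.integral_sub,
    intervalIntegral.integral_const_mul, intervalIntegral.integral_const_mul]
  · have h4 := ki_succ W
    have h5 : ki (W + 1) = ki W - ki W / (2 * W + 2) := by linarith
    show π / 2 * ((δ + 1 / δ) * ki W - 1 / δ * ki (W + 1)) = _
    rw [h5]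
    have h6 : (2 * (W : ℝ) + 2) ≠ 0 := by positivity
    field_simp
    ring
  · exact (continuous_const.mul (ker_cont W)).intervalIntegrable _ _
  · exact (continuous_const.mul (ker_cont (W + 1))).intervalIntegrable _ _

/-- the coefficients -/
def cf (W j : ℕ) : ℝ := (Nat.choose (2 * W) j : ℝ) / 4 ^ W

theorem cf_nonneg (W j : ℕ) : 0 ≤ cf W j := by unfold cf; positivity

theorem cf_sum (W : ℕ) : ∑ j ∈ Finset.range (2 * W + 1), cf W j = 1 := by
  unfold cf
  rw [← Finset.sum_div]
  have h1 := Nat.sum_range_choose (2 * W)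
  have h2 : ∑ j ∈ Finset.range (2 * W + 1), (Nat.choose (2 * W) j : ℝ) = 2 ^ (2 * W) := by
    exact_mod_cast h1
  rw [h2, pow_mul]
  norm_num

theorem ker_expand (W : ℕ) (y : ℝ) : ((ker W y : ℝ) : ℂ) =
    ∑ j ∈ Finset.range (2 * W + 1), (cf W j : ℂ) *
      Complex.exp ((((j : ℤ) - (W : ℤ) : ℤ) : ℂ) * y * Complex.I) := by
  have h1 : (((1 + Real.cos y) / 2 : ℝ) : ℂ) =
      (Complex.exp (y * Complex.I) + 1) ^ 2 * Complex.exp (-(y * Complex.I)) / 4 := by
    have h2 : ((Real.cos y : ℝ) : ℂ) = (Complex.exp (y * Complex.I) +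
        Complex.exp (-(y * Complex.I))) / 2 := by
      rw [Complex.ofReal_cos, Complex.cos]
      congr 2
      ring_nf
    have h3 : Complex.exp (y * Complex.I) * Complex.exp (-(y * Complex.I)) = 1 := by
      rw [← Complex.exp_add, add_neg_cancel, Complex.exp_zero]
    rw [Complex.ofReal_div, Complex.ofReal_add, Complex.ofReal_one, h2]
    push_cast
    have h4 : (Complex.exp (y * Complex.I) + 1) ^ 2 * Complex.exp (-(y * Complex.I)) =
        Complex.exp (y * Complex.I) * (Complex.exp (y * Complex.I) *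
          Complex.exp (-(y * Complex.I))) + 2 * (Complex.exp (y * Complex.I) *
          Complex.exp (-(y * Complex.I))) + Complex.exp (-(y * Complex.I)) := by ring
    rw [h4, h3]
    ring
  unfold ker
  rw [Complex.ofReal_pow, h1, div_pow, mul_pow, ← pow_mul, add_pow, Finset.sum_mul,
    Finset.sum_div]
  refine Finset.sum_congr rfl fun j _ => ?_
  unfold cf
  rw [one_pow, mul_one, ← Complex.exp_nat_mul, ← Complex.exp_nat_mul]
  push_cast
  have h5 : (((j : ℂ) - (W : ℂ)) * y * Complex.I) = (j : ℂ) * (y * Complex.I) +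
      (W : ℂ) * (-(y * Complex.I)) := by ring
  rw [h5, Complex.exp_add]
  ring

theorem psi_expand (W : ℕ) (φ : ℝ → ℝ) (hφ : Continuous φ) (a : ℝ) :
    ((∫ x in (0 : ℝ)..(2 * π), φ x * ker W (a - x) : ℝ) : ℂ) =
    ∑ j ∈ Finset.range (2 * W + 1), (cf W j : ℂ) *
      (Complex.exp ((((j : ℤ) - (W : ℤ) : ℤ) : ℂ) * a * Complex.I) *
      ∫ x in (0 : ℝ)..(2 * π), ((φ x : ℝ) : ℂ) *
        Complex.exp (-((((j : ℤ) - (W : ℤ) : ℤ) : ℂ) * x) * Complex.I)) := by
  rw [← intervalIntegral.integral_ofReal]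
  have h1 : ∀ x : ℝ, ((φ x * ker W (a - x) : ℝ) : ℂ) =
      ∑ j ∈ Finset.range (2 * W + 1), (cf W j : ℂ) *
      (Complex.exp ((((j : ℤ) - (W : ℤ) : ℤ) : ℂ) * a * Complex.I) *
      (((φ x : ℝ) : ℂ) *
        Complex.exp (-((((j : ℤ) - (W : ℤ) : ℤ) : ℂ) * x) * Complex.I))) := by
    intro x
    rw [Complex.ofReal_mul, ker_expand, Finset.mul_sum]
    refine Finset.sum_congr rfl fun j _ => ?_
    have h2 : Complex.exp ((((j : ℤ) - (W : ℤ) : ℤ) : ℂ) * ((a - x : ℝ) : ℂ) * Complex.I) =
        Complex.exp ((((j : ℤ) - (W : ℤ) : ℤ) : ℂ) * a * Complex.I) *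
        Complex.exp (-((((j : ℤ) - (W : ℤ) : ℤ) : ℂ) * x) * Complex.I) := by
      rw [← Complex.exp_add]
      congr 1
      push_cast
      ring
    rw [h2]
    ring
  simp_rw [h1]
  rw [intervalIntegral.integral_finsetSum]
  · refine Finset.sum_congr rfl fun j _ => ?_
    rw [intervalIntegral.integral_const_mul, intervalIntegral.integral_const_mul]
  · intro j _
    apply Continuous.intervalIntegrable
    fun_prop

theorem psi_close (W : ℕ) (φ : ℝ → ℝ) (hl : ∀ a b, |φ a - φ b| ≤ |a - b|)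
    (hφ : Continuous φ) (hp : ∀ a, φ (a + 2 * π) = φ a) (a : ℝ) :
    |(∫ x in (0 : ℝ)..(2 * π), φ x * ker W (a - x)) - φ a * ki W| ≤
      ∫ y in (-π)..π, |y| * ker W y := by
  have hpi := Real.pi_pos
  have hper : Function.Periodic (fun x => φ x * ker W (a - x)) (2 * π) := by
    intro x
    show φ (x + 2 * π) * ker W (a - (x + 2 * π)) = φ x * ker W (a - x)
    rw [hp, ← ker_per W (a - (x + 2 * π))]
    congr 2
    ring
  have h1 := hper.intervalIntegral_add_eq 0 (a - π)
  rw [zero_add] at h1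
  have h2 : a - π + 2 * π = a - -π := by ring
  rw [h2] at h1
  have h3 := intervalIntegral.integral_comp_sub_left (a := -π) (b := π)
    (fun x => φ x * ker W (a - x)) a
  rw [h1, ← h3]
  unfold ki
  rw [← intervalIntegral.integral_const_mul, ← intervalIntegral.integral_sub]
  · have h4 := intervalIntegral.norm_integral_le_integral_norm
      (f := fun y => φ (a - y) * ker W (a - (a - y)) - φ a * ker W y)
      (μ := volume) (show -π ≤ π by linarith)
    rw [Real.norm_eq_abs] at h4
    refine h4.trans ?_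
    apply intervalIntegral.integral_mono_on (by linarith)
    · apply Continuous.intervalIntegrable
      have := ker_cont W
      fun_prop
    · exact (continuous_abs.mul (ker_cont W)).intervalIntegrable _ _
    · intro y _
      have h5 : φ (a - y) * ker W (a - (a - y)) - φ a * ker W y =
          (φ (a - y) - φ a) * ker W y := by
        have : a - (a - y) = y := by ring
        rw [this]; ring
      rw [h5, norm_mul, Real.norm_eq_abs, Real.norm_eq_abs, abs_of_nonneg (ker_nonneg W y)]
      apply mul_le_mul_of_nonneg_right _ (ker_nonneg W y)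
      have h6 := hl (a - y) a
      have h7 : a - y - a = -y := by ring
      rwa [h7, abs_neg] at h6
  · apply Continuous.intervalIntegrable
    have := ker_cont W
    fun_prop
  · exact (continuous_const.mul (ker_cont W)).intervalIntegrable _ _

theorem pf_FOU : T_FOU := by
  intro ε hε
  have hpi := Real.pi_pos
  obtain ⟨δ, hδ⟩ : ∃ δ : ℝ, δ = ε / (4 * π) := ⟨_, rfl⟩
  have hδ0 : 0 < δ := by rw [hδ]; positivity
  obtain ⟨W, hW⟩ := exists_nat_gt (4 * π / (δ * ε))
  refine ⟨W, ε * ki W / 4, by have := ki_pos W; positivity, ?_⟩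
  intro φ hl hp hc a b
  have hcont : Continuous φ := by
    have : LipschitzWith 1 φ := by
      apply LipschitzWith.of_dist_le_mul
      intro x y
      rw [Real.dist_eq, Real.dist_eq, NNReal.coe_one, one_mul]
      exact hl x y
    exact this.continuous
  have hk := ki_pos W
  have hE : ∫ y in (-π)..π, |y| * ker W y ≤ ε / 4 * ki W := by
    refine (E_le W δ hδ0).trans (mul_le_mul_of_nonneg_right ?_ hk.le)
    have h1 : π / 2 * (δ + 1 / (δ * (2 * W + 2))) = π / 2 * δ + π / 2 * (1 / (δ * (2 * W + 2)))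
      := by ring
    have h2 : π / 2 * δ = ε / 8 := by rw [hδ]; field_simp; ring
    have h3 : π / 2 * (1 / (δ * (2 * W + 2))) ≤ ε / 8 := by
      rw [div_lt_iff₀ (by positivity)] at hW
      rw [mul_one_div, div_div, div_le_div_iff₀ (by positivity) (by norm_num)]
      nlinarith
    linarith
  have hab : |(∫ x in (0 : ℝ)..(2 * π), φ x * ker W (a - x)) -
      (∫ x in (0 : ℝ)..(2 * π), φ x * ker W (b - x))| ≤ ε / 2 * ki W := by
    have h1 : |(∫ x in (0 : ℝ)..(2 * π), φ x * ker W (a - x)) -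
      (∫ x in (0 : ℝ)..(2 * π), φ x * ker W (b - x))| =
        ‖((∫ x in (0 : ℝ)..(2 * π), φ x * ker W (a - x) : ℝ) : ℂ) -
          ((∫ x in (0 : ℝ)..(2 * π), φ x * ker W (b - x) : ℝ) : ℂ)‖ := by
      rw [← Complex.ofReal_sub, Complex.norm_real, Real.norm_eq_abs]
    rw [h1, psi_expand W φ hcont a, psi_expand W φ hcont b, ← Finset.sum_sub_distrib]
    refine (norm_sum_le _ _).trans ?_
    have h2 : ε / 2 * ki W = ∑ j ∈ Finset.range (2 * W + 1), cf W j * (ε / 2 * ki W) := by
      rw [← Finset.sum_mul, cf_sum, one_mul]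
    rw [h2]
    refine Finset.sum_le_sum fun j hj => ?_
    rw [← mul_sub, ← sub_mul, norm_mul, Complex.norm_real, Real.norm_eq_abs,
      abs_of_nonneg (cf_nonneg W j)]
    apply mul_le_mul_of_nonneg_left _ (cf_nonneg W j)
    rw [norm_mul]
    by_cases hjW : (j : ℤ) - (W : ℤ) = 0
    · rw [hjW]
      simp only [Int.cast_zero, zero_mul, Complex.exp_zero, sub_self, norm_zero]
      positivity
    · have h3 := hc ((j : ℤ) - (W : ℤ)) hjW (by
        rw [Finset.mem_range] at hj
        rw [abs_le]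
        constructor <;> omega)
      have h4 : ‖Complex.exp ((((j : ℤ) - (W : ℤ) : ℤ) : ℂ) * a * Complex.I) -
          Complex.exp ((((j : ℤ) - (W : ℤ) : ℤ) : ℂ) * b * Complex.I)‖ ≤ 2 := by
        have h5 : ∀ s : ℝ, ‖Complex.exp ((((j : ℤ) - (W : ℤ) : ℤ) : ℂ) * s * Complex.I)‖ = 1
          := by
          intro s
          have h6 : (((j : ℤ) - (W : ℤ) : ℤ) : ℂ) * s =
              ((((((j : ℤ) - (W : ℤ) : ℤ) : ℝ)) * s : ℝ) : ℂ) := by push_cast; ring
          rw [h6, Complex.norm_exp_ofReal_mul_I]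
        refine (norm_sub_le _ _).trans ?_
        rw [h5, h5]
        norm_num
      calc _ ≤ 2 * (ε * ki W / 4) := mul_le_mul h4 h3 (norm_nonneg _) (by norm_num)
        _ = ε / 2 * ki W := by ring
  have ha := psi_close W φ hl hcont hp a
  have hb := psi_close W φ hl hcont hp b
  have h1 : |φ a - φ b| * ki W ≤ ε * ki W := by
    rw [← abs_of_pos hk, ← abs_mul, abs_of_pos hk]
    rw [abs_le] at ha hb hab ⊢
    constructor <;> nlinarith [ha.1, ha.2, hb.1, hb.2, hab.1, hab.2]
  exact le_of_mul_le_mul_right h1 hk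

end

end Pool.Agent.H57.FAS
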